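import Mathlib
import Pool.Agent.H418R3.GurDefs
import Pool.Agent.H418R3.GurFinal

/-! The isomorphism class of the Gurarii space is neither a Borel set nor a `G_δ` set, in the space
of pseudonorms coding infinite-dimensional spaces and in the space of norms. -/

namespace Pool.Agent.Results.MP_c7f7e8_an.NotBorel

open Pool.Agent.H418R3.Gur TopologicalSpace

theorem result : ∃ (G : Type) (_ : NormedAddCommGroup G) (_ : NormedSpace ℝ G),
    CompleteSpace G ∧ SeparableSpace G ∧ IsGurarii G ∧
    (¬ IsGδ (isoClass PInf G) ∧ ¬ IsGδ (isoClass BB G)) ∧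
    (¬ @MeasurableSet PInf (borel PInf) (isoClass PInf G) ∧
      ¬ @MeasurableSet BB (borel BB) (isoClass BB G)) :=
  ⟨Sp uni.sn, inferInstance, inferInstance, inferInstance, separable_Sp _, uni_gurarii,
    ⟨not_gdelta theta_mem_PInf, not_gdelta theta_mem_BB⟩,
    ⟨not_borel theta_mem_PInf, not_borel theta_mem_BB⟩⟩

end Pool.Agent.Results.MP_c7f7e8_an.NotBorel
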